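import Pool.Agent.Helper42.TN.GoalsT
import Pool.Agent.Helper31.VN.LOCB

/-!
# Project TN (MP_a41896_nt), packet TN-LOCN: the local estimate

Adapted from `Pool/Agent/Helper25/PM/LOCW.lean` (helper25), itself from `Pool/Agent/Helper31/VN/LOCB.lean` (helper31).
-/

set_option autoImplicit false

open MvPolynomial

namespace Pool.Agent.Helper94.TN

open WeierstrassCurve Height
open Pool.Agent.Helper29.BL Pool.Agent.Helper92.Ru Pool.Agent.Helper42.SG
open Pool.Agent.Helper68.VN hiding xs Good nz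
open Pool.Agent.Helper19.PM
open Pool.Agent.Helper42.TN
open Pool.Agent.Helper56.SG2 (plc_pos plc_one plc_mul plc_pow)
open Pool.Agent.Helper31.VN.LOCB (all_blk Bf_map)

/-- **LOCN** -/
theorem t_LOCN (hF : FRPS) : Pool.Agent.Helper42.TN.LOCN := by
  intro K _ _ σ _ _ W J w n M k0 B B' B'' hn hB hB' hB''
  refine ⟨fun v => B v * ((B' v ^ (2 * M + 3) * B'' v ^ M) ^ Fintype.card σ *
    B' v ^ (2 * Fintype.card σ)), ?_, ?_⟩
  · exact plc_mul hB (plc_mul (plc_pow (plc_mul (plc_pow hB' _) (plc_pow hB'' _)) _)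
      (plc_pow hB' _))
  intro g f G e c ξ ψ ω x0 ψ0 a X Ψ α dl v r ρ s hKEY hG hTay hψ0 hc hr hρ hN hNf hψ0v h33 hcoef
  have hG1 : ∀ j, 1 ≤ G j v := fun j => hG j v
  have hM : ∀ j i, 1 ≤ Mv v (ξ j i) := fun j i => one_le_Mv v _
  have hM0 : ∀ i, 1 ≤ Mv v (x0 i) := fun i => one_le_Mv v _
  have hb := hB'.one_le v
  have hb0 : 0 < B' v := plc_pos hB' v
  have hB''1 := hB''.one_le v
  have hBv : 0 < B v := plc_pos hB v
  obtain ⟨hfr, hcauchy⟩ := hF K v (Fin n × σ) r hr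
  have hon : OnB W X Ψ (cn (MvPowerSeries (Fin n × σ) K) x0) (cn _ ψ0) :=
    ⟨hTay.on, fun i => by
      unfold cn
      rw [Bf_map, ← hψ0 i, map_pow]⟩
  have hk := hKEY v (MvPowerSeries (Fin n × σ) K) _ hfr X Ψ
    (fun j i => B' v * Mv v (ξ j i)) ρ s (B' v) hon hTay.rel
    (fun j i => one_le_mul_of_one_le_of_one_le hb (hM j i)) hb hρ
    (fun j i => (hN j i).1)
    (fun j i => hfr.mono _ _ _ (hN j i).2 (by
      have h1 := hM j i
      have h2 : 1 ≤ B' v ^ 2 := one_le_pow₀ hb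
      have h3 : 0 ≤ B' v * Mv v (ξ j i) ^ 2 := by positivity
      calc B' v * Mv v (ξ j i) ^ 2 ≤ (B' v * Mv v (ξ j i) ^ 2) * B' v ^ 2 :=
            le_mul_of_one_le_right h3 h2
        _ = B' v * (B' v * Mv v (ξ j i)) ^ 2 := by ring))
    hψ0v hNf hc (fun j i => decide (1 < v (ω j i)))
  have hC := hcauchy _ _ α hk
  have hcf := hcoef (fun j i => decide (1 < v (ω j i)))
  unfold PT at hcf
  rw [hcf, map_mul, map_prod] at hC
  have hnn := hfr.nonneg _ _ hk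
  have hom : (∏ j, v (∏ i, if decide (1 < v (ω j i)) = true then ω j i ^ M else 1)) =
      ∏ j, ∏ i, Mv v (ω j i) ^ M := by
    refine Finset.prod_congr rfl fun j _ => ?_
    rw [map_prod]
    refine Finset.prod_congr rfl fun i _ => ?_
    by_cases h1 : 1 < v (ω j i)
    · simp only [h1, decide_true, if_true]
      rw [map_pow]
      unfold Mv
      rw [max_eq_right h1.le]
    · simp only [h1, decide_false]
      unfold Mv
      rw [max_eq_left (not_lt.1 h1)]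
      simp
  rw [hom] at hC
  have e2 : rpw r α = (∏ h : Fin n × σ, (1 / r h) ^ (α h))⁻¹ := by
    unfold rpw
    rw [Finsupp.prod_fintype _ _ (fun i => pow_zero _), ← Finset.prod_inv_distrib]
    apply Finset.prod_congr rfl
    intro i _
    rw [one_div, inv_pow, inv_inv]
  rw [e2] at hC
  have hP : 0 < ∏ h : Fin n × σ, (1 / r h) ^ (α h) := by
    apply Finset.prod_pos
    intro i _
    have := hr i
    positivity
  have hkey := all_blk M 1 k0 e (B' v) (B'' v) ρ (fun j i => Mv v (ξ j i))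
    (fun j i => max (v (lawP W e false ξ ψ x0 ψ0 j i).1) (v (lawP W e false ξ ψ x0 ψ0 j i).2))
    (fun j i => Mv v (ω j i)) (fun i => Mv v (x0 i)) hb hB''1 (fun j => (hρ j).1) hM hM0
    (fun j i => le_max_of_le_left (v.nonneg _)) (fun j i => one_le_Mv v _) h33
  have hO : 0 < ∏ j, ∏ i, Mv v (ω j i) ^ M := Finset.prod_pos fun j _ =>
    Finset.prod_pos fun i _ => pow_pos (lt_of_lt_of_le one_pos (one_le_Mv v _)) _
  have hsq : n ≤ sqB e := by
    unfold sqB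
    calc n = ∑ _j : Fin n, 1 := by simp
      _ ≤ ∑ j, 4 ^ e j := Finset.sum_le_sum fun j _ => Nat.one_le_pow _ _ (by norm_num)
  have hkpos : 0 < keyV v M 1 k0 e (fun j i => B' v * Mv v (ξ j i)) ρ x0 := by
    unfold keyV
    apply mul_pos
    · apply Finset.prod_pos
      intro j _
      have h1 : 0 < ∏ i, B' v * Mv v (ξ j i) := Finset.prod_pos fun i _ => by
        have := hM j i
        positivity
      have := (hρ j).1
      positivity
    · exact Finset.prod_pos fun i _ => by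
        have := hM0 i
        positivity
  have hGG : 0 < ∏ j, G j v ^ ((4 * M + 4) * 4 ^ e j) := Finset.prod_pos fun j _ =>
    pow_pos (lt_of_lt_of_le one_pos (hG1 j)) _
  have hs : 0 ≤ s := by
    by_contra hlt
    push Not at hlt
    have : s * B' v ^ (2 * n * Fintype.card σ) *
        (B v ^ sqB e * ∏ j, G j v ^ ((4 * M + 4) * 4 ^ e j)) *
        keyV v M 1 k0 e (fun j i => B' v * Mv v (ξ j i)) ρ x0 < 0 := by
      have h1 : 0 < B' v ^ (2 * n * Fintype.card σ) *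
        (B v ^ sqB e * ∏ j, G j v ^ ((4 * M + 4) * 4 ^ e j)) *
        keyV v M 1 k0 e (fun j i => B' v * Mv v (ξ j i)) ρ x0 := by positivity
      calc s * B' v ^ (2 * n * Fintype.card σ) *
        (B v ^ sqB e * ∏ j, G j v ^ ((4 * M + 4) * 4 ^ e j)) *
        keyV v M 1 k0 e (fun j i => B' v * Mv v (ξ j i)) ρ x0 =
          s * (B' v ^ (2 * n * Fintype.card σ) *
        (B v ^ sqB e * ∏ j, G j v ^ ((4 * M + 4) * 4 ^ e j)) *
        keyV v M 1 k0 e (fun j i => B' v * Mv v (ξ j i)) ρ x0) := by ring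
        _ < 0 := mul_neg_of_neg_of_pos hlt h1
    linarith
  unfold keyV at hC
  -- abbreviations
  obtain ⟨OO, hOO⟩ : ∃ OO, OO = ∏ j, ∏ i, Mv v (ω j i) ^ M := ⟨_, rfl⟩
  obtain ⟨PP, hPP⟩ : ∃ PP, PP = ∏ h : Fin n × σ, (1 / r h) ^ (α h) := ⟨_, rfl⟩
  obtain ⟨YY, hYY⟩ : ∃ YY, YY = ∏ j, ∏ i, (max (v (lawP W e false ξ ψ x0 ψ0 j i).1)
          (v (lawP W e false ξ ψ x0 ψ0 j i).2)) ^ M * Mv v (ξ j i) ^ (4 ^ e j + 2) := ⟨_, rfl⟩
  obtain ⟨RR, hRR⟩ : ∃ RR, RR = ∏ j, ρ j ^ (k0 * 4 ^ e j) := ⟨_, rfl⟩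
  obtain ⟨ZZ, hZZ⟩ : ∃ ZZ, ZZ = ∏ i, Mv v (x0 i) ^ 1 := ⟨_, rfl⟩
  obtain ⟨GG, hGGd⟩ : ∃ GG, GG = ∏ j, G j v ^ ((4 * M + 4) * 4 ^ e j) := ⟨_, rfl⟩
  obtain ⟨KK, hKK⟩ : ∃ KK, KK = (∏ j, ((∏ i, B' v * Mv v (ξ j i)) ^
      (2 * 4 ^ e j * M + 4 ^ e j + 2) * ρ j ^ (k0 * 4 ^ e j))) *
      ∏ i, Mv v (x0 i) ^ (2 * n * M + 1) := ⟨_, rfl⟩
  have hKp : 0 ≤ KK := by rw [hKK]; exact hkpos.le
  rw [← hOO, ← hPP, ← hGGd, ← hKK] at hC
  rw [← hOO] at hO
  rw [← hPP] at hP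
  rw [← hGGd] at hGG
  rw [← hKK, ← hOO, ← hYY, ← hRR, ← hZZ] at hkey
  have hZ0 : ∏ i, Mv v (x0 i) = ZZ := by
    rw [hZZ]
    simp
  rw [← hYY, ← hRR, hZ0, ← hPP, ← hGGd]
  have h3 : OO * v dl ≤ s * B' v ^ (2 * n * Fintype.card σ) * (B v ^ sqB e * GG) * KK * PP := by
    have := mul_le_mul_of_nonneg_right hC hP.le
    rwa [mul_assoc, inv_mul_cancel₀ hP.ne', mul_one] at this
  have h5 : B' v ^ (2 * n * Fintype.card σ) ≤ (B' v ^ (2 * Fintype.card σ)) ^ sqB e := by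
    rw [← pow_mul]
    apply pow_le_pow_right₀ hb
    nlinarith [Nat.mul_le_mul_left (2 * Fintype.card σ) hsq]
  have hYp : 0 ≤ YY := by
    rw [hYY]
    exact Finset.prod_nonneg fun j _ => Finset.prod_nonneg fun i _ => by
      have h1 : 0 ≤ max (v (lawP W e false ξ ψ x0 ψ0 j i).1)
        (v (lawP W e false ξ ψ x0 ψ0 j i).2) := le_max_of_le_left (v.nonneg _)
      have := hM j i
      positivity
  have hRp : 0 ≤ RR := by
    rw [hRR]
    exact Finset.prod_nonneg fun j _ => pow_nonneg (hρ j).1.le _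
  have hZp : 0 ≤ ZZ := by
    rw [hZZ]
    exact Finset.prod_nonneg fun i _ => by
      have := hM0 i
      positivity
  refine le_of_mul_le_mul_left ?_ hO
  calc OO * v dl ≤ _ := h3
    _ ≤ s * (B' v ^ (2 * Fintype.card σ)) ^ sqB e * (B v ^ sqB e * GG) *
        (((B' v ^ (2 * M + 3) * B'' v ^ M) ^ Fintype.card σ) ^ sqB e *
          (YY * (RR * OO)) * ZZ) * PP := by
      gcongr
    _ = _ := by
      rw [mul_pow (B v), mul_pow ((B' v ^ (2 * M + 3) * B'' v ^ M) ^ Fintype.card σ)]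
      ring

end Pool.Agent.Helper94.TN
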